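import Mathlib

namespace Pool.Agent.Helper15.RankTwo

theorem cover_quadrant (l t w y N : ℤ) (hw : 0 ≤ w) (hy : 0 ≤ y)
    (hl : 0 < l) (ht : 0 < t) (hD : 0 < l * t - w * y) (hN : 0 < N) (F : ℕ) :
    ∀ U V : ℤ, 0 ≤ U → 0 ≤ V → ((t + y) * U + (l + w) * V).toNat = F →
      ∃ α β : ℤ, 0 ≤ U - N * (α * l - β * w) ∧ U - N * (α * l - β * w) < N * l ∧
        0 ≤ V - N * (-α * y + β * t) ∧ V - N * (-α * y + β * t) < N * t := by
  induction F using Nat.strong_induction_on with
  | _ F ih =>
    intro U V hU hV hF
    have hf0 : 0 ≤ (t + y) * U + (l + w) * V := by positivity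
    have hND : 0 < N * (l * t - w * y) := mul_pos hN hD
    by_cases h1 : N * l ≤ U
    · have hnew : (t + y) * (U - N * l) + (l + w) * (V + N * y)
          = ((t + y) * U + (l + w) * V) - N * (l * t - w * y) := by ring
      have hU' : 0 ≤ U - N * l := by linarith
      have hV' : 0 ≤ V + N * y := by positivity
      have hnew0 : 0 ≤ (t + y) * (U - N * l) + (l + w) * (V + N * y) := by positivity
      obtain ⟨α, β, h⟩ := ih _ (by
        rw [← hF]
        apply (Int.toNat_lt_toNat _).2
        · rw [hnew]; linarith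
        · linarith) (U - N * l) (V + N * y) hU' hV' rfl
      refine ⟨α + 1, β, ?_⟩
      have e1 : U - N * ((α + 1) * l - β * w) = (U - N * l) - N * (α * l - β * w) := by ring
      have e2 : V - N * (-(α + 1) * y + β * t) = (V + N * y) - N * (-α * y + β * t) := by ring
      rw [e1, e2]
      exact h
    · by_cases h2 : N * t ≤ V
      · have hnew : (t + y) * (U + N * w) + (l + w) * (V - N * t)
            = ((t + y) * U + (l + w) * V) - N * (l * t - w * y) := by ring
        have hU' : 0 ≤ U + N * w := by positivity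
        have hV' : 0 ≤ V - N * t := by linarith
        have hnew0 : 0 ≤ (t + y) * (U + N * w) + (l + w) * (V - N * t) := by positivity
        obtain ⟨α, β, h⟩ := ih _ (by
          rw [← hF]
          apply (Int.toNat_lt_toNat _).2
          · rw [hnew]; linarith
          · linarith) (U + N * w) (V - N * t) hU' hV' rfl
        refine ⟨α, β + 1, ?_⟩
        have e1 : U - N * (α * l - (β + 1) * w) = (U + N * w) - N * (α * l - β * w) := by ring
        have e2 : V - N * (-α * y + (β + 1) * t) = (V - N * t) - N * (-α * y + β * t) := by ring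
        rw [e1, e2]
        exact h
      · refine ⟨0, 0, ?_⟩
        push Not at h1 h2
        refine ⟨?_, ?_, ?_, ?_⟩ <;> ring_nf at * <;> linarith

/-- The half open box `[0, N l) x [0, N t)` meets every class modulo `N Λ`, where `Λ` is the
lattice generated by `(l, -y)` and `(-w, t)`. -/
theorem cover_box (l t w y N : ℤ) (hw : 0 ≤ w) (hy : 0 ≤ y)
    (hl : 0 < l) (ht : 0 < t) (hD : 0 < l * t - w * y) (hN : 0 < N) (U V : ℤ) :
      ∃ α β : ℤ, 0 ≤ U - N * (α * l - β * w) ∧ U - N * (α * l - β * w) < N * l ∧
        0 ≤ V - N * (-α * y + β * t) ∧ V - N * (-α * y + β * t) < N * t := by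
  set D := l * t - w * y with hDdef
  set M : ℤ := |U| + |V| with hM
  have hM0 : 0 ≤ M := by positivity
  have hND : 1 ≤ N * D := by nlinarith
  have hU : 0 ≤ U + N * (M * D) := by
    have h1 : M ≤ N * (M * D) := by nlinarith
    have h2 := neg_abs_le U
    have h3 := abs_nonneg V
    linarith
  have hV : 0 ≤ V + N * (M * D) := by
    have h1 : M ≤ N * (M * D) := by nlinarith
    have h2 := neg_abs_le V
    have h3 := abs_nonneg U
    linarith
  obtain ⟨α, β, h⟩ := cover_quadrant l t w y N hw hy hl ht hD hN _ _ _ hU hV rfl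
  refine ⟨α - M * (t + w), β - M * (l + y), ?_⟩
  have e1 : U - N * ((α - M * (t + w)) * l - (β - M * (l + y)) * w)
      = (U + N * (M * D)) - N * (α * l - β * w) := by rw [hDdef]; ring
  have e2 : V - N * (-(α - M * (t + w)) * y + (β - M * (l + y)) * t)
      = (V + N * (M * D)) - N * (-α * y + β * t) := by rw [hDdef]; ring
  rw [e1, e2]
  exact h

theorem abs_add_abs_le_of {a b s : ℤ} (h1 : |a + b| ≤ s) (h2 : |a - b| ≤ s) :
    |a| + |b| ≤ s := by
  rw [abs_le] at h1 h2
  rcases abs_cases a with ⟨ha, _⟩ | ⟨ha, _⟩ <;> rcases abs_cases b with ⟨hb, _⟩ | ⟨hb, _⟩ <;>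
    rw [ha, hb] <;> linarith [h1.1, h1.2, h2.1, h2.2]

theorem of_abs_add_abs_le {a b s : ℤ} (h : |a| + |b| ≤ s) :
    |a + b| ≤ s ∧ |a - b| ≤ s := by
  constructor
  · exact (abs_add_le a b).trans h
  · exact (abs_sub a b).trans h

/-- Covering lemma in the original coordinates: the lattice generated by `(e, e')` and `(f, -f')`
scaled by `N` is an `l1`-covering of radius `⌊N h / 2⌋` if `e + e', f + f' ≤ h`. -/
theorem cover_l1 (e e' f f' h N s : ℤ) (h1 : 0 < e + e') (h2 : 0 ≤ e' - e) (h3 : 0 < f + f')
    (h4 : 0 ≤ f' - f) (hl : e + e' ≤ h) (ht : f + f' ≤ h) (hD : 0 < e * f' + e' * f)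
    (hN : 0 < N) (hs : N * h ≤ 2 * s + 1) (X Y : ℤ) :
    ∃ α β : ℤ, |X - N * (α * e + β * f)| + |Y - N * (α * e' - β * f')| ≤ s := by
  obtain ⟨α, β, hU0, hU1, hV0, hV1⟩ := cover_box (e + e') (f + f') (f' - f) (e' - e) N h4 h2 h1 h3
    (by nlinarith) hN (X + Y + s) (X - Y + s)
  refine ⟨α, β, ?_⟩
  have hNl : N * (e + e') ≤ N * h := mul_le_mul_of_nonneg_left hl hN.le
  have hNt : N * (f + f') ≤ N * h := mul_le_mul_of_nonneg_left ht hN.le
  apply abs_add_abs_le_of
  · have : (X - N * (α * e + β * f)) + (Y - N * (α * e' - β * f'))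
        = (X + Y + s - N * (α * (e + e') - β * (f' - f))) - s := by ring
    rw [this, abs_le]
    constructor <;> linarith
  · have : (X - N * (α * e + β * f)) - (Y - N * (α * e' - β * f'))
        = (X - Y + s - N * (-α * (e' - e) + β * (f + f'))) - s := by ring
    rw [this, abs_le]
    constructor <;> linarith

/-- Covering lemma for the perfect lattice, odd scaling. -/
theorem cover_perfect (k N s : ℤ) (hk : 0 ≤ k) (hN : 0 < N) (hodd : N % 2 = 1)
    (hs : s + 1 = N * (k + 1)) (X Y : ℤ) :
    ∃ α β : ℤ, |X - N * (α * (k + 1) - β * k)| + |Y - N * (α * k + β * (k + 1))| ≤ s := by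
  obtain ⟨α, β, hU0, hU1, hV0, hV1⟩ := cover_box (2 * k + 2) (2 * k + 1) 1 (2 * k) N (by norm_num)
    (by linarith) (by linarith) (by linarith) (by nlinarith) hN (X + Y + s) (X - Y + s)
  set U' : ℤ := X + Y - N * (α * (2 * k + 2) - β * 1) with hU'
  set V' : ℤ := X - Y - N * (-α * (2 * k) + β * (2 * k + 1)) with hV'
  have a0 : -s ≤ U' := by rw [hU']; linarith
  have a1 : U' ≤ s + 1 := by
    rw [hU']
    have : N * (2 * k + 2) = 2 * s + 2 := by linarith
    linarith
  have b0 : -s ≤ V' := by rw [hV']; linarith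
  have b1 : V' ≤ s + 1 - N := by
    rw [hV']
    have : N * (2 * k + 1) = 2 * s + 2 - N := by linarith
    linarith
  have hNk : 0 ≤ N * k := mul_nonneg hN.le hk
  have hs' : s = N * k + N - 1 := by linarith
  by_cases hc : U' ≤ s
  · refine ⟨α, α - β, ?_⟩
    apply abs_add_abs_le_of
    · have : (X - N * (α * (k + 1) - (α - β) * k)) + (Y - N * (α * k + (α - β) * (k + 1))) = U' := by
        rw [hU']; ring
      rw [this, abs_le]
      exact ⟨a0, hc⟩
    · have : (X - N * (α * (k + 1) - (α - β) * k)) - (Y - N * (α * k + (α - β) * (k + 1))) = V' := by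
        rw [hV']; ring
      rw [this, abs_le]
      constructor <;> linarith
  · have hU's : U' = s + 1 := by omega
    by_cases hd : N - s ≤ V'
    · refine ⟨α + 1, α - β, ?_⟩
      apply abs_add_abs_le_of
      · have : (X - N * ((α + 1) * (k + 1) - (α - β) * k))
            + (Y - N * ((α + 1) * k + (α - β) * (k + 1))) = U' - N * (2 * k + 1) := by
          rw [hU']; ring
        rw [this, abs_le, hU's]
        constructor <;> nlinarith
      · have : (X - N * ((α + 1) * (k + 1) - (α - β) * k))
            - (Y - N * ((α + 1) * k + (α - β) * (k + 1))) = V' - N := by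
          rw [hV']; ring
        rw [this, abs_le]
        constructor <;> linarith
    · have hpar : (U' + V') % 2 = 0 := by
        have : U' + V' = 2 * (X - N * (α + k * β)) := by rw [hU', hV']; ring
        rw [this]
        omega
      have hne : V' ≠ - (N * k) := by
        intro h
        rw [hU's, h, hs'] at hpar
        omega
      have hV's : V' ≤ - (N * k) - 1 := by omega
      refine ⟨α, α - β + 1, ?_⟩
      apply abs_add_abs_le_of
      · have : (X - N * (α * (k + 1) - (α - β + 1) * k))
            + (Y - N * (α * k + (α - β + 1) * (k + 1))) = U' - N := by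
          rw [hU']; ring
        rw [this, abs_le, hU's]
        constructor <;> linarith
      · have : (X - N * (α * (k + 1) - (α - β + 1) * k))
            - (Y - N * (α * k + (α - β + 1) * (k + 1))) = V' + N * (2 * k + 1) := by
          rw [hV']; ring
        rw [this, abs_le]
        constructor <;> nlinarith

end Pool.Agent.Helper15.RankTwo
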