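import Mathlib

namespace Pool.Agent.Helper15.RankTwo

/-- From integer data to a two element spanning set. -/
theorem pair_of_good {s n m : ℕ} (hn : 2 ≤ n) {u v c d : ℤ}
    (hdet : u * d - v * c = 1)
    (hcov : ∀ X Y : ℤ, ∃ p q : ℤ, (m : ℤ) ∣ u * p + v * q ∧ |X - n * p| + |Y - n * q| ≤ s) :
    ∃ a b : ZMod n × ZMod (n * m), a ≠ b ∧
      ∀ g, ∃ x y : ℤ, |x| + |y| ≤ s ∧ x • a + y • b = g := by
  refine ⟨((c : ZMod n), (u : ZMod (n * m))), ((d : ZMod n), (v : ZMod (n * m))), ?_, ?_⟩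
  · intro hab
    have h1 : (c : ZMod n) = d := congrArg Prod.fst hab
    have h2 : (u : ZMod (n * m)) = v := congrArg Prod.snd hab
    rw [ZMod.intCast_eq_intCast_iff_dvd_sub] at h1 h2
    have h3 : (n : ℤ) ∣ v - u := by
      refine dvd_trans ?_ h2
      push_cast
      exact dvd_mul_right _ _
    have h4 : (n : ℤ) ∣ 1 := by
      have e : (1 : ℤ) = u * (d - c) - c * (v - u) := by rw [← hdet]; ring
      rw [e]
      exact dvd_sub (h1.mul_left _) (h3.mul_left _)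
    have h5 := Int.le_of_dvd one_pos h4
    omega
  · rintro ⟨g1, g2⟩
    obtain ⟨α, rfl⟩ := ZMod.intCast_surjective g1
    obtain ⟨β, rfl⟩ := ZMod.intCast_surjective g2
    obtain ⟨p, q, hpq, hle⟩ := hcov (-v * α + d * β) (u * α - c * β)
    refine ⟨_, _, hle, ?_⟩
    ext
    · simp only [Prod.smul_mk, Prod.mk_add_mk, zsmul_eq_mul]
      rw [← Int.cast_mul, ← Int.cast_mul, ← Int.cast_add, ZMod.intCast_eq_intCast_iff_dvd_sub]
      have e : α - ((-v * α + d * β - n * p) * c + (u * α - c * β - n * q) * d)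
          = n * (c * p + d * q) + α * (1 - (u * d - v * c)) := by ring
      rw [e, hdet]
      simp
    · simp only [Prod.smul_mk, Prod.mk_add_mk, zsmul_eq_mul]
      rw [← Int.cast_mul, ← Int.cast_mul, ← Int.cast_add, ZMod.intCast_eq_intCast_iff_dvd_sub]
      have e : β - ((-v * α + d * β - n * p) * u + (u * α - c * β - n * q) * v)
          = n * (u * p + v * q) + β * (1 - (u * d - v * c)) := by ring
      rw [e, hdet]
      push_cast
      simp only [mul_zero, add_zero]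
      exact mul_dvd_mul_left _ hpq

/-- From a two element spanning set to integer data. -/
theorem good_of_pair {s n m : ℕ} (hn : 2 ≤ n)
    {a b : ZMod n × ZMod (n * m)}
    (h : ∀ g, ∃ x y : ℤ, |x| + |y| ≤ (s : ℤ) ∧ x • a + y • b = g) :
    ∃ u v : ℤ, (∃ x y : ℤ, (m : ℤ) ∣ u * x + v * y - 1) ∧
      ∀ X Y : ℤ, ∃ p q : ℤ, (m : ℤ) ∣ u * p + v * q ∧ |X - n * p| + |Y - n * q| ≤ s := by
  obtain ⟨a1, a2⟩ := a
  obtain ⟨b1, b2⟩ := b
  obtain ⟨c, rfl⟩ := ZMod.intCast_surjective a1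
  obtain ⟨u, rfl⟩ := ZMod.intCast_surjective a2
  obtain ⟨d, rfl⟩ := ZMod.intCast_surjective b1
  obtain ⟨v, rfl⟩ := ZMod.intCast_surjective b2
  have hn0 : (0 : ℤ) < n := by exact_mod_cast (by omega : 0 < n)
  -- translate the group equation into congruences
  have tr : ∀ x y α β : ℤ, x • ((c : ZMod n), (u : ZMod (n * m))) + y • ((d : ZMod n),
      (v : ZMod (n * m))) = ((α : ZMod n), (β : ZMod (n * m))) →
      (n : ℤ) ∣ (c * x + d * y) - α ∧ (n : ℤ) * m ∣ (u * x + v * y) - β := by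
    intro x y α β hxy
    simp only [Prod.smul_mk, Prod.mk_add_mk, zsmul_eq_mul, Prod.mk.injEq] at hxy
    obtain ⟨h1, h2⟩ := hxy
    rw [← Int.cast_mul, ← Int.cast_mul, ← Int.cast_add, eq_comm,
      ZMod.intCast_eq_intCast_iff_dvd_sub] at h1 h2
    push_cast at h2
    constructor
    · convert h1 using 1; ring
    · convert h2 using 1; ring
  obtain ⟨x1, y1, _, h1⟩ := h (((1 : ℤ) : ZMod n), ((0 : ℤ) : ZMod (n * m)))
  obtain ⟨x2, y2, _, h2⟩ := h (((0 : ℤ) : ZMod n), ((1 : ℤ) : ZMod (n * m)))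
  obtain ⟨h1a, h1b⟩ := tr _ _ _ _ h1
  obtain ⟨h2a, h2b⟩ := tr _ _ _ _ h2
  have h1b' : (n : ℤ) ∣ (u * x1 + v * y1) - 0 := dvd_trans (dvd_mul_right _ _) h1b
  have h2b' : (n : ℤ) ∣ (u * x2 + v * y2) - 1 := dvd_trans (dvd_mul_right _ _) h2b
  refine ⟨u, v, ⟨x2, y2, dvd_trans (dvd_mul_left _ _) h2b⟩, ?_⟩
  -- determinant is a unit modulo `n`
  have hdet : (n : ℤ) ∣ (c * v - d * u) * (x1 * y2 - x2 * y1) - 1 := by
    have e : (c * v - d * u) * (x1 * y2 - x2 * y1) - 1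
        = (c * x1 + d * y1 - 1) * (u * x2 + v * y2) + (u * x2 + v * y2 - 1)
          - (c * x2 + d * y2 - 0) * (u * x1 + v * y1) := by ring
    rw [e]
    exact dvd_sub (dvd_add (h1a.mul_right _) h2b') (h2a.mul_right _)
  intro X Y
  obtain ⟨x, y, hle, hxy⟩ := h (((c * X + d * Y : ℤ) : ZMod n), ((u * X + v * Y : ℤ) : ZMod (n * m)))
  obtain ⟨h3, h4⟩ := tr _ _ _ _ hxy
  have h4' : (n : ℤ) ∣ (u * x + v * y) - (u * X + v * Y) := dvd_trans (dvd_mul_right _ _) h4
  have hX : (n : ℤ) ∣ X - x := by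
    have e : X - x = -(v * ((c * x + d * y) - (c * X + d * Y))
        - d * ((u * x + v * y) - (u * X + v * Y))) * (x1 * y2 - x2 * y1)
        - (X - x) * ((c * v - d * u) * (x1 * y2 - x2 * y1) - 1) := by ring
    rw [e]
    exact dvd_sub (((dvd_neg).2 (dvd_sub (h3.mul_left _) (h4'.mul_left _))).mul_right _)
      (hdet.mul_left _)
  have hY : (n : ℤ) ∣ Y - y := by
    have e : Y - y = -(c * ((u * x + v * y) - (u * X + v * Y))
        - u * ((c * x + d * y) - (c * X + d * Y))) * (x1 * y2 - x2 * y1)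
        - (Y - y) * ((c * v - d * u) * (x1 * y2 - x2 * y1) - 1) := by ring
    rw [e]
    exact dvd_sub (((dvd_neg).2 (dvd_sub (h4'.mul_left _) (h3.mul_left _))).mul_right _)
      (hdet.mul_left _)
  obtain ⟨p, hp⟩ := hX
  obtain ⟨q, hq⟩ := hY
  refine ⟨p, q, ?_, ?_⟩
  · have e : (u * x + v * y) - (u * X + v * Y) = n * (-(u * p + v * q)) := by
      have hx : x = X - n * p := by linarith
      have hy : y = Y - n * q := by linarith
      rw [hx, hy]; ring
    rw [e] at h4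
    have := Int.dvd_of_mul_dvd_mul_left (ne_of_gt hn0) h4
    exact (dvd_neg).1 this
  · have hx : X - n * p = x := by linarith
    have hy : Y - n * q = y := by linarith
    rw [hx, hy]
    exact hle

/-- No single element spans. -/
theorem no_single {n m : ℕ} (hn : 2 ≤ n) {a : ZMod n × ZMod (n * m)}
    (h : ∀ g, ∃ x : ℤ, x • a = g) : False := by
  obtain ⟨a1, a2⟩ := a
  obtain ⟨c, rfl⟩ := ZMod.intCast_surjective a1
  obtain ⟨u, rfl⟩ := ZMod.intCast_surjective a2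
  obtain ⟨x, hx⟩ := h (((1 : ℤ) : ZMod n), ((0 : ℤ) : ZMod (n * m)))
  obtain ⟨y, hy⟩ := h (((0 : ℤ) : ZMod n), ((1 : ℤ) : ZMod (n * m)))
  simp only [Prod.smul_mk, zsmul_eq_mul, Prod.mk.injEq] at hx hy
  obtain ⟨hx1, hx2⟩ := hx
  obtain ⟨hy1, hy2⟩ := hy
  rw [← Int.cast_mul, eq_comm, ZMod.intCast_eq_intCast_iff_dvd_sub] at hx1 hx2 hy1 hy2
  push_cast at hx2 hy2
  have hy2' : (n : ℤ) ∣ y * u - 1 := dvd_trans (dvd_mul_right _ _) hy2
  have h1 : (n : ℤ) ∣ y := by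
    have e : y = (y * c - 0) * x - y * (x * c - 1) := by ring
    rw [e]
    exact dvd_sub (hy1.mul_right _) (hx1.mul_left _)
  have h2 : (n : ℤ) ∣ 1 := by
    have e : (1 : ℤ) = y * u - (y * u - 1) := by ring
    rw [e]
    exact dvd_sub (h1.mul_right _) hy2'
  have h3 := Int.le_of_dvd one_pos h2
  omega

end Pool.Agent.Helper15.RankTwo
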