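import Mathlib

namespace Pool.Agent.Helper15.RankTwo

/-- If finitely many points represent all classes, there are at least `m` of them. -/
theorem card_le_of_cover {m : ℕ} (hm : 0 < m) {u v : ℤ}
    (hgen : ∃ x y : ℤ, (m : ℤ) ∣ u * x + v * y - 1) {α : Type} [Fintype α] (f : α → ℤ × ℤ)
    (h : ∀ X Y : ℤ, ∃ a : α, (m : ℤ) ∣ u * (X - (f a).1) + v * (Y - (f a).2)) :
    m ≤ Fintype.card α := by
  have : NeZero m := ⟨hm.ne'⟩
  obtain ⟨x, y, hxy⟩ := hgen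
  have hs : Function.Surjective (fun a : α => ((u * (f a).1 + v * (f a).2 : ℤ) : ZMod m)) := by
    intro g
    obtain ⟨z, rfl⟩ := ZMod.intCast_surjective g
    obtain ⟨a, ha⟩ := h (z * x) (z * y)
    refine ⟨a, ?_⟩
    rw [ZMod.intCast_eq_intCast_iff_dvd_sub]
    have h2 : z - (u * (f a).1 + v * (f a).2)
        = (u * (z * x - (f a).1) + v * (z * y - (f a).2)) - z * (u * x + v * y - 1) := by ring
    rw [h2]
    exact dvd_sub ha (hxy.mul_left z)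
  have h9 := Fintype.card_le_of_surjective _ hs
  rwa [ZMod.card] at h9

theorem box_count {m : ℕ} (hm : 0 < m) {u v : ℤ}
    (hgen : ∃ x y : ℤ, (m : ℤ) ∣ u * x + v * y - 1) (a b : ℕ) (A B : ℤ)
    (h : ∀ X Y : ℤ, ∃ dx dy : ℤ, A ≤ dx + dy ∧ dx + dy < A + a ∧ B ≤ dx - dy ∧
      dx - dy < B + 2 * b ∧ (m : ℤ) ∣ u * (X - dx) + v * (Y - dy)) : m ≤ a * b := by
  have := card_le_of_cover hm hgen (α := Fin a × Fin b)
    (fun p => (((A + (p.1 : ℤ)) + (B + 2 * (p.2 : ℤ) + (A + (p.1 : ℤ) - B) % 2)) / 2,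
      ((A + (p.1 : ℤ)) - (B + 2 * (p.2 : ℤ) + (A + (p.1 : ℤ) - B) % 2)) / 2)) (by
    intro X Y
    obtain ⟨dx, dy, h1, h2, h3, h4, h5⟩ := h X Y
    refine ⟨(⟨(dx + dy - A).toNat, by omega⟩, ⟨((dx - dy - B) / 2).toNat, by omega⟩), ?_⟩
    have e1 : (((dx + dy - A).toNat : ℕ) : ℤ) = dx + dy - A := Int.toNat_of_nonneg (by linarith)
    have e2 : ((((dx - dy - B) / 2).toNat : ℕ) : ℤ) = (dx - dy - B) / 2 :=
      Int.toNat_of_nonneg (by omega)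
    simp only [e1, e2]
    have e3 : ((A + (dx + dy - A)) + (B + 2 * ((dx - dy - B) / 2) + (A + (dx + dy - A) - B) % 2)) / 2
        = dx := by omega
    have e4 : ((A + (dx + dy - A)) - (B + 2 * ((dx - dy - B) / 2) + (A + (dx + dy - A) - B) % 2)) / 2
        = dy := by omega
    rw [e3, e4]
    exact h5)
  simpa using this

theorem box_count' {m : ℕ} (hm : 0 < m) {u v : ℤ}
    (hgen : ∃ x y : ℤ, (m : ℤ) ∣ u * x + v * y - 1) (a b : ℕ) (A B : ℤ)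
    (h : ∀ X Y : ℤ, ∃ dx dy : ℤ, A ≤ dx + dy ∧ dx + dy < A + 2 * a ∧ B ≤ dx - dy ∧
      dx - dy < B + b ∧ (m : ℤ) ∣ u * (X - dx) + v * (Y - dy)) : m ≤ b * a := by
  obtain ⟨x, y, hxy⟩ := hgen
  refine box_count hm (u := u) (v := -v) ⟨x, -y, by simpa using hxy⟩ b a B A ?_
  intro X Y
  obtain ⟨dx, dy, h1, h2, h3, h4, h5⟩ := h X (-Y)
  refine ⟨dx, -dy, by linarith, by linarith, by linarith, by linarith, ?_⟩
  have : u * (X - dx) + -v * (Y - -dy) = u * (X - dx) + v * (-Y - dy) := by ring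
  rw [this]
  exact h5

theorem odd_count {m : ℕ} (hm : 0 < m) {u v : ℤ}
    (hgen : ∃ x y : ℤ, (m : ℤ) ∣ u * x + v * y - 1) (k : ℕ)
    (h : ∀ X Y : ℤ, ∃ p q : ℤ, (m : ℤ) ∣ u * p + v * q ∧
      |2 * X + 1 - 2 * p| + |2 * Y + 1 - 2 * q| ≤ 2 * k) : m ≤ 2 * (k * (k + 1)) := by
  have := card_le_of_cover hm hgen (α := (Fin (k + 1) × Fin k) ⊕ (Fin k × Fin (k + 1)))
    (Sum.elim (fun p => (-(k : ℤ) + p.1 + p.2, (p.1 : ℤ) - p.2 - 1))
      (fun p => (-(k : ℤ) + p.1 + p.2, (p.1 : ℤ) - p.2))) (by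
    intro X Y
    obtain ⟨p, q, h1, h2⟩ := h X Y
    obtain ⟨dx, hdx⟩ : ∃ dx, dx = X - p := ⟨_, rfl⟩
    obtain ⟨dy, hdy⟩ : ∃ dy, dy = Y - q := ⟨_, rfl⟩
    have g1 : |2 * dx + 1| + |2 * dy + 1| ≤ 2 * k := by
      have e1 : 2 * dx + 1 = 2 * X + 1 - 2 * p := by rw [hdx]; ring
      have e2 : 2 * dy + 1 = 2 * Y + 1 - 2 * q := by rw [hdy]; ring
      rw [e1, e2]; exact h2
    have g2 : -(k : ℤ) ≤ dx + dy + 1 ∧ dx + dy + 1 ≤ k ∧ -(k : ℤ) ≤ dx - dy ∧ dx - dy ≤ k := by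
      rcases abs_cases (2 * dx + 1) with ⟨ha, _⟩ | ⟨ha, _⟩ <;>
        rcases abs_cases (2 * dy + 1) with ⟨hb, _⟩ | ⟨hb, _⟩ <;>
        rw [ha, hb] at g1 <;> omega
    obtain ⟨g3, g4, g5, g6⟩ := g2
    by_cases hpar : (dx + dy + 1 + k) % 2 = 0
    · refine ⟨Sum.inl (⟨((dx + dy + 1 + k) / 2).toNat, by omega⟩,
        ⟨((dx - dy + k - 1) / 2).toNat, by omega⟩), ?_⟩
      have e1 : ((((dx + dy + 1 + k) / 2).toNat : ℕ) : ℤ) = (dx + dy + 1 + k) / 2 :=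
        Int.toNat_of_nonneg (by omega)
      have e2 : ((((dx - dy + k - 1) / 2).toNat : ℕ) : ℤ) = (dx - dy + k - 1) / 2 :=
        Int.toNat_of_nonneg (by omega)
      simp only [Sum.elim_inl, e1, e2]
      have e3 : -(k : ℤ) + (dx + dy + 1 + k) / 2 + (dx - dy + k - 1) / 2 = dx := by omega
      have e4 : (dx + dy + 1 + k) / 2 - (dx - dy + k - 1) / 2 - 1 = dy := by omega
      rw [e3, e4, hdx, hdy]
      simpa using h1
    · refine ⟨Sum.inr (⟨((dx + dy + k) / 2).toNat, by omega⟩,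
        ⟨((dx - dy + k) / 2).toNat, by omega⟩), ?_⟩
      have e1 : ((((dx + dy + k) / 2).toNat : ℕ) : ℤ) = (dx + dy + k) / 2 :=
        Int.toNat_of_nonneg (by omega)
      have e2 : ((((dx - dy + k) / 2).toNat : ℕ) : ℤ) = (dx - dy + k) / 2 :=
        Int.toNat_of_nonneg (by omega)
      simp only [Sum.elim_inr, e1, e2]
      have e3 : -(k : ℤ) + (dx + dy + k) / 2 + (dx - dy + k) / 2 = dx := by omega
      have e4 : (dx + dy + k) / 2 - (dx - dy + k) / 2 = dy := by omega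
      rw [e3, e4, hdx, hdy]
      simpa using h1)
  simp only [Fintype.card_sum, Fintype.card_prod, Fintype.card_fin] at this
  nlinarith

theorem even_count {m : ℕ} (hm : 0 < m) {u v : ℤ}
    (hgen : ∃ x y : ℤ, (m : ℤ) ∣ u * x + v * y - 1) (k : ℕ)
    (h : ∀ X Y : ℤ, ∃ p q : ℤ, (m : ℤ) ∣ u * p + v * q ∧
      |X - p| + |Y - q| ≤ k) : m ≤ k ^ 2 + (k + 1) ^ 2 := by
  have := card_le_of_cover hm hgen (α := (Fin (k + 1) × Fin (k + 1)) ⊕ (Fin k × Fin k))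
    (Sum.elim (fun p => (-(k : ℤ) + p.1 + p.2, (p.1 : ℤ) - p.2))
      (fun p => (-(k : ℤ) + 1 + p.1 + p.2, (p.1 : ℤ) - p.2))) (by
    intro X Y
    obtain ⟨p, q, h1, h2⟩ := h X Y
    obtain ⟨dx, hdx⟩ : ∃ dx, dx = X - p := ⟨_, rfl⟩
    obtain ⟨dy, hdy⟩ : ∃ dy, dy = Y - q := ⟨_, rfl⟩
    have g1 : |dx| + |dy| ≤ k := by
      rw [hdx, hdy]; exact h2
    have g2 : -(k : ℤ) ≤ dx + dy ∧ dx + dy ≤ k ∧ -(k : ℤ) ≤ dx - dy ∧ dx - dy ≤ k := by
      rcases abs_cases dx with ⟨ha, _⟩ | ⟨ha, _⟩ <;>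
        rcases abs_cases dy with ⟨hb, _⟩ | ⟨hb, _⟩ <;>
        rw [ha, hb] at g1 <;> omega
    obtain ⟨g3, g4, g5, g6⟩ := g2
    by_cases hpar : (dx + dy + k) % 2 = 0
    · refine ⟨Sum.inl (⟨((dx + dy + k) / 2).toNat, by omega⟩,
        ⟨((dx - dy + k) / 2).toNat, by omega⟩), ?_⟩
      have e1 : ((((dx + dy + k) / 2).toNat : ℕ) : ℤ) = (dx + dy + k) / 2 :=
        Int.toNat_of_nonneg (by omega)
      have e2 : ((((dx - dy + k) / 2).toNat : ℕ) : ℤ) = (dx - dy + k) / 2 :=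
        Int.toNat_of_nonneg (by omega)
      simp only [Sum.elim_inl, e1, e2]
      have e3 : -(k : ℤ) + (dx + dy + k) / 2 + (dx - dy + k) / 2 = dx := by omega
      have e4 : (dx + dy + k) / 2 - (dx - dy + k) / 2 = dy := by omega
      rw [e3, e4, hdx, hdy]
      simpa using h1
    · refine ⟨Sum.inr (⟨((dx + dy + k - 1) / 2).toNat, by omega⟩,
        ⟨((dx - dy + k - 1) / 2).toNat, by omega⟩), ?_⟩
      have e1 : ((((dx + dy + k - 1) / 2).toNat : ℕ) : ℤ) = (dx + dy + k - 1) / 2 :=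
        Int.toNat_of_nonneg (by omega)
      have e2 : ((((dx - dy + k - 1) / 2).toNat : ℕ) : ℤ) = (dx - dy + k - 1) / 2 :=
        Int.toNat_of_nonneg (by omega)
      simp only [Sum.elim_inr, e1, e2]
      have e3 : -(k : ℤ) + 1 + (dx + dy + k - 1) / 2 + (dx - dy + k - 1) / 2 = dx := by omega
      have e4 : (dx + dy + k - 1) / 2 - (dx - dy + k - 1) / 2 = dy := by omega
      rw [e3, e4, hdx, hdy]
      simpa using h1)
  simp only [Fintype.card_sum, Fintype.card_prod, Fintype.card_fin] at this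
  nlinarith

/-- From the two midpoint covering properties to surjectivity of all `2k x 2k` boxes. -/
theorem box_surj {m : ℕ} {u v : ℤ} (k : ℕ)
    (hH : ∀ X Y : ℤ, ∃ p q : ℤ, (m : ℤ) ∣ u * p + v * q ∧
      |2 * X + 1 - 2 * p| + |2 * Y - 2 * q| ≤ 2 * k - 1)
    (hV : ∀ X Y : ℤ, ∃ p q : ℤ, (m : ℤ) ∣ u * p + v * q ∧
      |2 * X - 2 * p| + |2 * Y + 1 - 2 * q| ≤ 2 * k - 1) (A B X Y : ℤ) :
    ∃ dx dy : ℤ, A ≤ dx + dy ∧ dx + dy < A + 2 * k ∧ B ≤ dx - dy ∧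
      dx - dy < B + 2 * k ∧ (m : ℤ) ∣ u * (X - dx) + v * (Y - dy) := by
  by_cases hpar : (A - B) % 2 = 0
  · obtain ⟨x0, hx0⟩ : ∃ x0, x0 = (A + B + 2 * k) / 2 := ⟨_, rfl⟩
    obtain ⟨y0, hy0⟩ : ∃ y0, y0 = (A - B) / 2 := ⟨_, rfl⟩
    obtain ⟨p, q, h1, h2⟩ := hH (X - x0) (Y - y0)
    refine ⟨X - p, Y - q, ?_⟩
    have e1 : X - (X - p) = p := by ring
    have e2 : Y - (Y - q) = q := by ring
    rw [e1, e2]
    rcases abs_cases (2 * (X - x0) + 1 - 2 * p) with ⟨ha, _⟩ | ⟨ha, _⟩ <;>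
        rcases abs_cases (2 * (Y - y0) - 2 * q) with ⟨hb, _⟩ | ⟨hb, _⟩ <;>
        rw [ha, hb] at h2 <;> refine ⟨?_, ?_, ?_, ?_, h1⟩ <;> omega
  · obtain ⟨x0, hx0⟩ : ∃ x0, x0 = (A + B + 2 * k - 1) / 2 := ⟨_, rfl⟩
    obtain ⟨y0, hy0⟩ : ∃ y0, y0 = (A - B + 1) / 2 := ⟨_, rfl⟩
    obtain ⟨p, q, h1, h2⟩ := hV (X - x0) (Y - y0)
    refine ⟨X - p, Y - q, ?_⟩
    have e1 : X - (X - p) = p := by ring
    have e2 : Y - (Y - q) = q := by ring
    rw [e1, e2]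
    rcases abs_cases (2 * (X - x0) - 2 * p) with ⟨ha, _⟩ | ⟨ha, _⟩ <;>
        rcases abs_cases (2 * (Y - y0) + 1 - 2 * q) with ⟨hb, _⟩ | ⟨hb, _⟩ <;>
        rw [ha, hb] at h2 <;> refine ⟨?_, ?_, ?_, ?_, h1⟩ <;> omega

theorem det_dvd {m : ℕ} {u v : ℤ} (hgen : ∃ x y : ℤ, (m : ℤ) ∣ u * x + v * y - 1)
    {p q p' q' : ℤ} (h : (m : ℤ) ∣ u * p + v * q) (h' : (m : ℤ) ∣ u * p' + v * q') :
    (m : ℤ) ∣ p * q' - p' * q := by
  obtain ⟨x, y, hxy⟩ := hgen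
  have e : p * q' - p' * q = (u * p + v * q) * (q' * x - p' * y) - (u * p' + v * q') * (q * x - p * y)
      - (p * q' - p' * q) * (u * x + v * y - 1) := by ring
  rw [e]
  exact dvd_sub (dvd_sub (h.mul_right _) (h'.mul_right _)) (hxy.mul_left _)

/-- Structure of the lattice in the dense case. -/
theorem structure_even {m : ℕ} (hm : 0 < m) {u v : ℤ}
    (hgen : ∃ x y : ℤ, (m : ℤ) ∣ u * x + v * y - 1) (k : ℕ) (hk : 1 ≤ k)
    (hbox : ∀ A B X Y : ℤ, ∃ dx dy : ℤ, A ≤ dx + dy ∧ dx + dy < A + 2 * k ∧ B ≤ dx - dy ∧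
      dx - dy < B + 2 * k ∧ (m : ℤ) ∣ u * (X - dx) + v * (Y - dy))
    (hbig : (2 * k - 1) * k < m) :
    (∃ r : ℤ, -(k : ℤ) < r ∧ r < k ∧ (m : ℤ) ∣ u * (k + r) + v * (k - r)) ∧
    (∃ w : ℤ, -(k : ℤ) < w ∧ w < k ∧ (m : ℤ) ∣ u * (k + w) + v * (w - k)) := by
  constructor
  · by_contra hcon
    push Not at hcon
    apply absurd hbig
    push Not
    refine box_count hm hgen (2 * k - 1) k 1 0 ?_
    intro X Y
    obtain ⟨dx, dy, h1, h2, h3, h4, h5⟩ := hbox 0 0 X Y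
    by_cases hc : 1 ≤ dx + dy
    · refine ⟨dx, dy, hc, ?_, h3, h4, h5⟩
      omega
    · obtain ⟨dx', dy', h1', h2', h3', h4', h5'⟩ := hbox 1 0 X Y
      by_cases hc' : dx' + dy' < 2 * k
      · refine ⟨dx', dy', h1', ?_, h3', h4', h5'⟩
        omega
      · exfalso
        have hd := dvd_sub h5 h5'
        obtain ⟨r, hr⟩ : ∃ r : ℤ, r = (dx' - dx) - k := ⟨_, rfl⟩
        apply hcon r (by omega) (by omega)
        have e : u * (k + r) + v * (k - r) = u * (X - dx) + v * (Y - dy)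
            - (u * (X - dx') + v * (Y - dy')) := by
          have e1 : (k : ℤ) + r = dx' - dx := by rw [hr]; ring
          have e2 : (k : ℤ) - r = dy' - dy := by omega
          rw [e1, e2]; ring
        rw [e]
        exact hd
  · by_contra hcon
    push Not at hcon
    apply absurd hbig
    push Not
    refine box_count' hm hgen k (2 * k - 1) 0 1 ?_
    intro X Y
    obtain ⟨dx, dy, h1, h2, h3, h4, h5⟩ := hbox 0 0 X Y
    by_cases hc : 1 ≤ dx - dy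
    · refine ⟨dx, dy, h1, h2, hc, ?_, h5⟩
      omega
    · obtain ⟨dx', dy', h1', h2', h3', h4', h5'⟩ := hbox 0 1 X Y
      by_cases hc' : dx' - dy' < 2 * k
      · refine ⟨dx', dy', h1', h2', h3', ?_, h5'⟩
        omega
      · exfalso
        have hd := dvd_sub h5 h5'
        obtain ⟨w, hw⟩ : ∃ w : ℤ, w = (dx' - dx) - k := ⟨_, rfl⟩
        apply hcon w (by omega) (by omega)
        have e : u * (k + w) + v * (w - k) = u * (X - dx) + v * (Y - dy)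
            - (u * (X - dx') + v * (Y - dy')) := by
          have e1 : (k : ℤ) + w = dx' - dx := by rw [hw]; ring
          have e2 : w - (k : ℤ) = dy' - dy := by omega
          rw [e1, e2]; ring
        rw [e]
        exact hd

end Pool.Agent.Helper15.RankTwo
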