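import Pool.Agent.Helper15.RankTwo.Nec

namespace Pool.Agent.Helper15.RankTwo

theorem abs_mul_sum (n a b : ℤ) (hn : 0 ≤ n) : |n * a| + |n * b| = n * (|a| + |b|) := by
  rw [abs_mul, abs_mul, abs_of_nonneg hn]; ring

/-- Necessary condition, odd threshold. -/
theorem nec_odd {m s n k : ℕ} (hm : 0 < m) (hn : 2 ≤ n) {u v : ℤ}
    (hgen : ∃ x y : ℤ, (m : ℤ) ∣ u * x + v * y - 1)
    (hcov : ∀ X Y : ℤ, ∃ p q : ℤ, (m : ℤ) ∣ u * p + v * q ∧ |X - n * p| + |Y - n * q| ≤ s)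
    (hh : 2 * s + 1 < n * (2 * k + 1 + 1)) :
    2 * m < (2 * k + 1) ^ 2 ∨
      (n % 2 = 1 ∧ n * (2 * k + 1 + 1) = 2 * (s + 1) ∧ 2 * m = (2 * k + 1) ^ 2 + 1) := by
  have hn0 : (0 : ℤ) < n := by exact_mod_cast (by omega : 0 < n)
  have hhZ : 2 * (s : ℤ) + 1 < n * (2 * k + 1 + 1) := by exact_mod_cast hh
  have H1 : m ≤ k ^ 2 + (k + 1) ^ 2 := by
    apply even_count hm hgen
    intro X Y
    obtain ⟨p, q, h1, h2⟩ := hcov (n * X) (n * Y)
    refine ⟨p, q, h1, ?_⟩
    have e : |(n : ℤ) * X - n * p| + |(n : ℤ) * Y - n * q| = n * (|X - p| + |Y - q|) := by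
      rw [← mul_sub, ← mul_sub, abs_mul_sum _ _ _ hn0.le]
    rw [e] at h2
    by_contra hcon
    push Not at hcon
    nlinarith
  by_cases hP : n % 2 = 1 ∧ n * (2 * k + 1 + 1) = 2 * (s + 1)
  · by_cases hlt : 2 * m < (2 * k + 1) ^ 2
    · exact Or.inl hlt
    · right
      refine ⟨hP.1, hP.2, ?_⟩
      push Not at hlt
      have e1 : (2 * k + 1) ^ 2 = 2 * (2 * k ^ 2 + 2 * k) + 1 := by ring
      have e2 : k ^ 2 + (k + 1) ^ 2 = 2 * k ^ 2 + 2 * k + 1 := by ring
      omega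
  · left
    have H2 : m ≤ 2 * (k * (k + 1)) := by
      apply odd_count hm hgen
      intro X Y
      rcases Nat.even_or_odd' n with ⟨n', hn' | hn'⟩
      · obtain ⟨p, q, h1, h2⟩ := hcov (n' * (2 * X + 1)) (n' * (2 * Y + 1))
        refine ⟨p, q, h1, ?_⟩
        have hn'0 : (0 : ℤ) < n' := by exact_mod_cast (by omega : 0 < n')
        have e : |(n' : ℤ) * (2 * X + 1) - (n : ℤ) * p| + |(n' : ℤ) * (2 * Y + 1) - (n : ℤ) * q|
            = n' * (|2 * X + 1 - 2 * p| + |2 * Y + 1 - 2 * q|) := by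
          rw [← abs_mul_sum _ _ _ hn'0.le, hn']
          congr 2 <;> push_cast <;> ring
        rw [e] at h2
        by_contra hcon
        push Not at hcon
        have hge : 2 * (k : ℤ) + 2 ≤ |2 * X + 1 - 2 * p| + |2 * Y + 1 - 2 * q| := by
          rcases abs_cases (2 * X + 1 - 2 * p) with ⟨ha, _⟩ | ⟨ha, _⟩ <;>
            rcases abs_cases (2 * Y + 1 - 2 * q) with ⟨hb, _⟩ | ⟨hb, _⟩ <;>
            rw [ha, hb] at hcon ⊢ <;> omega
        have h3 : (n' : ℤ) * (2 * k + 2) ≤ s :=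
          (mul_le_mul_of_nonneg_left hge hn'0.le).trans h2
        have h4 : (n : ℤ) = 2 * n' := by exact_mod_cast hn'
        rw [h4] at hhZ
        nlinarith
      · obtain ⟨p, q, h1, h2⟩ := hcov (n * X + n') (n * Y + n')
        refine ⟨p, q, h1, ?_⟩
        have h4 : (n : ℤ) = 2 * n' + 1 := by exact_mod_cast hn'
        have e1 : 2 * ((n : ℤ) * X + n' - n * p) = n * (2 * X + 1 - 2 * p) - 1 := by
          rw [h4]; ring
        have e2 : 2 * ((n : ℤ) * Y + n' - n * q) = n * (2 * Y + 1 - 2 * q) - 1 := by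
          rw [h4]; ring
        have e3 : (n : ℤ) * (|2 * X + 1 - 2 * p| + |2 * Y + 1 - 2 * q|) ≤ 2 * s + 2 := by
          rw [← abs_mul_sum _ _ _ hn0.le]
          have f1 : |(n : ℤ) * (2 * X + 1 - 2 * p)| ≤ 2 * |(n : ℤ) * X + n' - n * p| + 1 := by
            have : (n : ℤ) * (2 * X + 1 - 2 * p) = 2 * ((n : ℤ) * X + n' - n * p) + 1 := by
              rw [e1]; ring
            rw [this]
            refine (abs_add_le _ _).trans ?_
            rw [abs_mul]
            simp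
          have f2 : |(n : ℤ) * (2 * Y + 1 - 2 * q)| ≤ 2 * |(n : ℤ) * Y + n' - n * q| + 1 := by
            have : (n : ℤ) * (2 * Y + 1 - 2 * q) = 2 * ((n : ℤ) * Y + n' - n * q) + 1 := by
              rw [e2]; ring
            rw [this]
            refine (abs_add_le _ _).trans ?_
            rw [abs_mul]
            simp
          linarith
        by_contra hcon
        push Not at hcon
        have hge : 2 * (k : ℤ) + 2 ≤ |2 * X + 1 - 2 * p| + |2 * Y + 1 - 2 * q| := by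
          rcases abs_cases (2 * X + 1 - 2 * p) with ⟨ha, _⟩ | ⟨ha, _⟩ <;>
            rcases abs_cases (2 * Y + 1 - 2 * q) with ⟨hb, _⟩ | ⟨hb, _⟩ <;>
            rw [ha, hb] at hcon ⊢ <;> omega
        have h3 : (n : ℤ) * (2 * k + 2) ≤ 2 * s + 2 :=
          (mul_le_mul_of_nonneg_left hge hn0.le).trans e3
        apply hP
        refine ⟨by omega, ?_⟩
        have h5 : (n : ℤ) * (2 * k + 1 + 1) = 2 * (s + 1) := by
          have : (n : ℤ) * (2 * k + 2) = n * (2 * k + 1 + 1) := by ring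
          rw [this] at h3
          omega
        exact_mod_cast h5
    nlinarith

/-- Necessary condition, even threshold. -/
theorem nec_even {m s n k : ℕ} (hm : 0 < m) (hn : 2 ≤ n) {u v : ℤ}
    (hgen : ∃ x y : ℤ, (m : ℤ) ∣ u * x + v * y - 1)
    (hcov : ∀ X Y : ℤ, ∃ p q : ℤ, (m : ℤ) ∣ u * p + v * q ∧ |X - n * p| + |Y - n * q| ≤ s)
    (hh : 2 * s + 1 < n * (2 * k + 1)) :
    m ≤ (2 * k - 1) * k ∨
      (m ≤ 2 * k * k ∧ ((k % 2 = 0 ∧ m % 2 = 0) ∨ (k % 2 = 1 ∧ m % 4 = 2))) := by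
  have hn0 : (0 : ℤ) < n := by exact_mod_cast (by omega : 0 < n)
  have hhZ : 2 * (s : ℤ) + 1 < n * (2 * k + 1) := by exact_mod_cast hh
  have hcov' : ∀ X Y : ℤ, ∃ p q : ℤ, (m : ℤ) ∣ u * q + v * p ∧ |X - n * p| + |Y - n * q| ≤ s := by
    intro X Y
    obtain ⟨p, q, h1, h2⟩ := hcov Y X
    exact ⟨q, p, h1, by rw [add_comm]; exact h2⟩
  -- midpoint covering, first coordinate
  have key : ∀ P : ℤ → ℤ → Prop, (∀ X Y : ℤ, ∃ p q : ℤ, P p q ∧ |X - n * p| + |Y - n * q| ≤ s) →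
      ∀ X Y : ℤ, ∃ p q : ℤ, P p q ∧ |2 * X + 1 - 2 * p| + |2 * Y - 2 * q| ≤ 2 * k - 1 := by
    intro P hP X Y
    rcases Nat.even_or_odd' n with ⟨n', hn' | hn'⟩
    · obtain ⟨p, q, h1, h2⟩ := hP (n' * (2 * X + 1)) (n * Y)
      refine ⟨p, q, h1, ?_⟩
      have hn'0 : (0 : ℤ) < n' := by exact_mod_cast (by omega : 0 < n')
      have e : |(n' : ℤ) * (2 * X + 1) - (n : ℤ) * p| + |(n : ℤ) * Y - (n : ℤ) * q|
          = n' * (|2 * X + 1 - 2 * p| + |2 * Y - 2 * q|) := by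
        rw [← abs_mul_sum _ _ _ hn'0.le, hn']
        congr 2 <;> push_cast <;> ring
      rw [e] at h2
      by_contra hcon
      push Not at hcon
      have hge : 2 * (k : ℤ) + 1 ≤ |2 * X + 1 - 2 * p| + |2 * Y - 2 * q| := by
        rcases abs_cases (2 * X + 1 - 2 * p) with ⟨ha, _⟩ | ⟨ha, _⟩ <;>
          rcases abs_cases (2 * Y - 2 * q) with ⟨hb, _⟩ | ⟨hb, _⟩ <;>
          rw [ha, hb] at hcon ⊢ <;> omega
      have h3 : (n' : ℤ) * (2 * k + 1) ≤ s :=
        (mul_le_mul_of_nonneg_left hge hn'0.le).trans h2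
      have h4 : (n : ℤ) = 2 * n' := by exact_mod_cast hn'
      rw [h4] at hhZ
      nlinarith
    · obtain ⟨p, q, h1, h2⟩ := hP (n * X + n') (n * Y)
      refine ⟨p, q, h1, ?_⟩
      have h4 : (n : ℤ) = 2 * n' + 1 := by exact_mod_cast hn'
      have e1 : 2 * ((n : ℤ) * X + n' - n * p) = n * (2 * X + 1 - 2 * p) - 1 := by
        rw [h4]; ring
      have e3 : (n : ℤ) * (|2 * X + 1 - 2 * p| + |2 * Y - 2 * q|) ≤ 2 * s + 1 := by
        rw [← abs_mul_sum _ _ _ hn0.le]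
        have f1 : |(n : ℤ) * (2 * X + 1 - 2 * p)| ≤ 2 * |(n : ℤ) * X + n' - n * p| + 1 := by
          have : (n : ℤ) * (2 * X + 1 - 2 * p) = 2 * ((n : ℤ) * X + n' - n * p) + 1 := by
            rw [e1]; ring
          rw [this]
          refine (abs_add_le _ _).trans ?_
          rw [abs_mul]
          simp
        have f2 : |(n : ℤ) * (2 * Y - 2 * q)| = 2 * |(n : ℤ) * Y - n * q| := by
          have : (n : ℤ) * (2 * Y - 2 * q) = 2 * ((n : ℤ) * Y - n * q) := by ring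
          rw [this, abs_mul]
          simp
        linarith
      by_contra hcon
      push Not at hcon
      have hge : 2 * (k : ℤ) + 1 ≤ |2 * X + 1 - 2 * p| + |2 * Y - 2 * q| := by
        rcases abs_cases (2 * X + 1 - 2 * p) with ⟨ha, _⟩ | ⟨ha, _⟩ <;>
          rcases abs_cases (2 * Y - 2 * q) with ⟨hb, _⟩ | ⟨hb, _⟩ <;>
          rw [ha, hb] at hcon ⊢ <;> omega
      have h3 : (n : ℤ) * (2 * k + 1) ≤ 2 * s + 1 :=
        (mul_le_mul_of_nonneg_left hge hn0.le).trans e3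
      linarith
  have hH := key (fun p q => (m : ℤ) ∣ u * p + v * q) hcov
  have hV' := key (fun p q => (m : ℤ) ∣ u * q + v * p) hcov'
  have hV : ∀ X Y : ℤ, ∃ p q : ℤ, (m : ℤ) ∣ u * p + v * q ∧
      |2 * X - 2 * p| + |2 * Y + 1 - 2 * q| ≤ 2 * k - 1 := by
    intro X Y
    obtain ⟨p, q, h1, h2⟩ := hV' Y X
    exact ⟨q, p, h1, by rw [add_comm]; exact h2⟩
  have hbox := box_surj k hH hV
  have hk : 1 ≤ k := by
    obtain ⟨p, q, _, h2⟩ := hH 0 0
    have h3 := abs_nonneg (2 * (0 : ℤ) + 1 - 2 * p)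
    have h4 := abs_nonneg (2 * (0 : ℤ) - 2 * q)
    omega
  have hle : m ≤ 2 * k * k := by
    refine box_count hm hgen (2 * k) k 0 0 ?_
    intro X Y
    obtain ⟨dx, dy, h1, h2, h3, h4, h5⟩ := hbox 0 0 X Y
    refine ⟨dx, dy, h1, ?_, h3, h4, h5⟩
    push_cast
    exact h2
  rcases le_or_gt m ((2 * k - 1) * k) with hsmall | hbig
  · exact Or.inl hsmall
  right
  refine ⟨hle, ?_⟩
  obtain ⟨⟨r, hr1, hr2, hr3⟩, ⟨w, hw1, hw2, hw3⟩⟩ := structure_even hm hgen k hk hbox hbig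
  have hdet := det_dvd hgen hr3 hw3
  have hdet2 : (m : ℤ) ∣ 2 * (k : ℤ) ^ 2 - 2 * (r * w) := by
    have e : 2 * (k : ℤ) ^ 2 - 2 * (r * w) = -((k + r) * (w - k) - (k + w) * (k - r)) := by ring
    rw [e]
    exact (dvd_neg).2 hdet
  obtain ⟨c, hc⟩ := hdet2
  have hkZ : (1 : ℤ) ≤ k := by exact_mod_cast hk
  have hm0 : (0 : ℤ) < m := by exact_mod_cast hm
  have hbigZ : 2 * (k : ℤ) ^ 2 - k + 1 ≤ m := by
    have : (2 * k - 1) * k + 1 ≤ m := hbig
    have h2 : (((2 * k - 1) * k + 1 : ℕ) : ℤ) ≤ m := by exact_mod_cast this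
    have h3 : (((2 * k - 1 : ℕ) : ℤ)) = 2 * (k : ℤ) - 1 := by
      rw [Nat.cast_sub (by omega)]; push_cast; ring
    push_cast [h3] at h2
    nlinarith
  have hrw1 : r * w ≤ ((k : ℤ) - 1) ^ 2 := by
    have : |r * w| ≤ ((k : ℤ) - 1) * (k - 1) := by
      rw [abs_mul]
      apply mul_le_mul _ _ (abs_nonneg _) (by linarith)
      · rw [abs_le]; constructor <;> linarith
      · rw [abs_le]; constructor <;> linarith
    have h2 := le_abs_self (r * w)
    nlinarith
  have hrw2 : -(((k : ℤ) - 1) ^ 2) ≤ r * w := by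
    have : |r * w| ≤ ((k : ℤ) - 1) * (k - 1) := by
      rw [abs_mul]
      apply mul_le_mul _ _ (abs_nonneg _) (by linarith)
      · rw [abs_le]; constructor <;> linarith
      · rw [abs_le]; constructor <;> linarith
    have h2 := neg_abs_le (r * w)
    nlinarith
  have hc1 : 0 < c := by
    by_contra hcon
    push Not at hcon
    nlinarith
  have hc2 : c < 2 := by
    by_contra hcon
    push Not at hcon
    nlinarith
  have hc3 : c = 1 := by omega
  rw [hc3, mul_one] at hc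
  have hmeq : (m : ℤ) = 2 * ((k : ℤ) ^ 2 - r * w) := by rw [← hc]; ring
  have hm2 : m % 2 = 0 := by omega
  rcases Nat.mod_two_eq_zero_or_one k with hk2 | hk2
  · exact Or.inl ⟨hk2, hm2⟩
  · right
    refine ⟨hk2, ?_⟩
    by_contra hm4
    -- `m` divisible by four
    obtain ⟨μ, hμ⟩ : ∃ μ : ℤ, (m : ℤ) = 2 * μ := ⟨(k : ℤ) ^ 2 - r * w, hmeq⟩
    have hμ2 : μ = (k : ℤ) ^ 2 - r * w := by linarith
    have hμeven : μ % 2 = 0 := by omega
    have hkodd : (k : ℤ) % 2 = 1 := by omega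
    have hrwodd : (r * w) % 2 = 1 := by
      have h1 : ((k : ℤ) ^ 2) % 2 = 1 := by
        rw [pow_two, Int.mul_emod, hkodd]; norm_num
      omega
    have hrodd : r % 2 = 1 := by
      rcases Int.emod_two_eq_zero_or_one r with h | h
      · rw [Int.mul_emod, h] at hrwodd; simp at hrwodd
      · exact h
    have hwodd : w % 2 = 1 := by
      rcases Int.emod_two_eq_zero_or_one w with h | h
      · rw [Int.mul_emod, h] at hrwodd; simp at hrwodd
      · exact h
    obtain ⟨a1, ha1⟩ : ∃ a1 : ℤ, (k : ℤ) + r = 2 * a1 := ⟨((k : ℤ) + r) / 2, by omega⟩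
    obtain ⟨b1, hb1⟩ : ∃ b1 : ℤ, (k : ℤ) - r = 2 * b1 := ⟨((k : ℤ) - r) / 2, by omega⟩
    obtain ⟨a2, ha2⟩ : ∃ a2 : ℤ, (k : ℤ) + w = 2 * a2 := ⟨((k : ℤ) + w) / 2, by omega⟩
    obtain ⟨b2, hb2⟩ : ∃ b2 : ℤ, w - (k : ℤ) = 2 * b2 := ⟨(w - (k : ℤ)) / 2, by omega⟩
    have hdd : 2 * (a1 * b2 - a2 * b1) = -μ := by
      have : (k + r) * (w - k) - (k + w) * (k - r) = -(2 * μ) := by
        rw [hμ2]; ring
      rw [ha1, hb1, ha2, hb2] at this
      linarith
    have hμpos : 0 < μ := by linarith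
    have hnot : ¬ (m : ℤ) ∣ -μ := by
      intro h
      rw [dvd_neg, hμ] at h
      have := Int.le_of_dvd hμpos h
      linarith
    obtain ⟨c1, hc1'⟩ : μ ∣ u * a1 + v * b1 := by
      rw [ha1, hb1, hμ] at hr3
      have : u * (2 * a1) + v * (2 * b1) = 2 * (u * a1 + v * b1) := by ring
      rw [this] at hr3
      exact Int.dvd_of_mul_dvd_mul_left (by norm_num) hr3
    obtain ⟨c2, hc2'⟩ : μ ∣ u * a2 + v * b2 := by
      rw [ha2, hb2, hμ] at hw3
      have : u * (2 * a2) + v * (2 * b2) = 2 * (u * a2 + v * b2) := by ring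
      rw [this] at hw3
      exact Int.dvd_of_mul_dvd_mul_left (by norm_num) hw3
    rcases Int.emod_two_eq_zero_or_one c1 with h1 | h1
    · apply hnot
      have hin : (m : ℤ) ∣ u * a1 + v * b1 := by
        refine ⟨c1 / 2, ?_⟩
        rw [hc1', hμ]
        have h9 : 2 * (c1 / 2) = c1 := by omega
        rw [show 2 * μ * (c1 / 2) = μ * (2 * (c1 / 2)) by ring, h9]
      have := det_dvd hgen hin hw3
      rw [ha2, hb2] at this
      have e : a1 * (2 * b2) - 2 * a2 * b1 = -μ := by rw [← hdd]; ring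
      rwa [e] at this
    · rcases Int.emod_two_eq_zero_or_one c2 with h2 | h2
      · apply hnot
        have hin : (m : ℤ) ∣ u * a2 + v * b2 := by
          refine ⟨c2 / 2, ?_⟩
          rw [hc2', hμ]
          have h9 : 2 * (c2 / 2) = c2 := by omega
          rw [show 2 * μ * (c2 / 2) = μ * (2 * (c2 / 2)) by ring, h9]
        have := det_dvd hgen hr3 hin
        rw [ha1, hb1] at this
        have e : 2 * a1 * b2 - a2 * (2 * b1) = -μ := by rw [← hdd]; ring
        rwa [e] at this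
      · apply hnot
        have hin : (m : ℤ) ∣ u * (a1 + a2) + v * (b1 + b2) := by
          refine ⟨(c1 + c2) / 2, ?_⟩
          have e : u * (a1 + a2) + v * (b1 + b2) = (u * a1 + v * b1) + (u * a2 + v * b2) := by ring
          rw [e, hc1', hc2', hμ]
          have h9 : 2 * ((c1 + c2) / 2) = c1 + c2 := by omega
          rw [show 2 * μ * ((c1 + c2) / 2) = μ * (2 * ((c1 + c2) / 2)) by ring, h9]
          ring
        have := det_dvd hgen hin hw3
        rw [ha2, hb2] at this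
        have e : (a1 + a2) * (2 * b2) - 2 * a2 * (b1 + b2) = -μ := by rw [← hdd]; ring
        rwa [e] at this

end Pool.Agent.Helper15.RankTwo
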