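import Pool.Agent.Helper15.RankTwo.Cover

namespace Pool.Agent.Helper15.RankTwo

/-- Integer level data which produce a two element spanning set. -/
def Good (s n m : ℕ) : Prop :=
  ∃ u v c d : ℤ, u * d - v * c = 1 ∧ ∀ X Y : ℤ, ∃ p q : ℤ, (m : ℤ) ∣ u * p + v * q ∧
    |X - n * p| + |Y - n * q| ≤ s

theorem good_family1 {s n m : ℕ} (hn : 2 ≤ n) (hm : 0 < m) (κ h : ℕ) (h1 : 2 * κ + 1 ≤ h)
    (h2 : 2 * m ≤ h * (2 * κ + 1)) (hs : n * h ≤ 2 * s + 1) : Good s n m := by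
  refine ⟨κ + 1, κ, 1, 1, by ring, ?_⟩
  intro X Y
  set l : ℕ := (2 * m + 2 * κ) / (2 * κ + 1) with hl
  have hl1 : 2 * m ≤ l * (2 * κ + 1) := by
    have h3 := Nat.lt_mul_div_succ (2 * m + 2 * κ) (show 0 < 2 * κ + 1 by omega)
    rw [← hl] at h3
    nlinarith
  have hl2 : l ≤ h := by
    have h3 : l < h + 1 := by
      rw [hl, Nat.div_lt_iff_lt_mul (by omega)]
      nlinarith
    exact Nat.lt_succ_iff.mp h3
  have hl0 : 0 < l := by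
    rcases Nat.eq_zero_or_pos l with h0 | h0
    · rw [h0] at hl1
      omega
    · exact h0
  have hn0 : (0 : ℤ) < n := by exact_mod_cast (by omega : 0 < n)
  have hl1Z : 2 * (m : ℤ) ≤ l * (2 * κ + 1) := by exact_mod_cast hl1
  have hl2Z : (l : ℤ) ≤ h := by exact_mod_cast hl2
  have hl0Z : (0 : ℤ) < l := by exact_mod_cast hl0
  have hm0Z : (0 : ℤ) < m := by exact_mod_cast hm
  have h1Z : 2 * (κ : ℤ) + 1 ≤ h := by exact_mod_cast h1
  have hsZ : (n : ℤ) * h ≤ 2 * s + 1 := by exact_mod_cast hs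
  obtain ⟨α, β, hab⟩ := cover_l1 ((m : ℤ) - l * κ) (l * (κ + 1) - m) κ (κ + 1) h n s
    (by linarith) (by linarith) (by positivity) (by linarith) (by linarith) (by linarith)
    (by
      have : ((m : ℤ) - l * κ) * (κ + 1) + (l * (κ + 1) - m) * κ = m := by ring
      rw [this]; exact hm0Z) hn0 hsZ X Y
  refine ⟨_, _, ?_, hab⟩
  refine ⟨α, ?_⟩
  ring

theorem good_family2 {s n m : ℕ} (hn : 2 ≤ n) (hm : 0 < m) (k : ℕ)
    (h2 : m ≤ 2 * k ^ 2) (hpar : (k % 2 = 0 ∧ m % 2 = 0) ∨ (k % 2 = 1 ∧ m % 4 = 2))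
    (hs : n * (2 * k) ≤ 2 * s + 1) : Good s n m := by
  have hk : 0 < k := by
    rcases Nat.eq_zero_or_pos k with h | h
    · rw [h] at h2; omega
    · exact h
  have hn0 : (0 : ℤ) < n := by exact_mod_cast (by omega : 0 < n)
  have hk0 : (0 : ℤ) < k := by exact_mod_cast hk
  have hm0Z : (0 : ℤ) < m := by exact_mod_cast hm
  have h2Z : (m : ℤ) ≤ 2 * (k : ℤ) ^ 2 := by exact_mod_cast h2
  have hsZ : (n : ℤ) * (2 * k) ≤ 2 * s + 1 := by exact_mod_cast hs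
  obtain ⟨μ, hμ⟩ : ∃ μ : ℤ, (m : ℤ) = 2 * μ := ⟨(m : ℤ) / 2, by omega⟩
  obtain ⟨i, hi⟩ : ∃ i : ℤ, i = (k : ℤ) ^ 2 - μ := ⟨_, rfl⟩
  have hi0 : 0 ≤ i := by linarith
  have cov := cover_l1 ((k : ℤ) - i) (k + i) (k - 1) (k + 1) (2 * k) n s (by linarith)
    (by linarith) (by linarith) (by linarith) (by linarith) (by linarith)
    (by
      have : ((k : ℤ) - i) * (k + 1) + (k + i) * (k - 1) = m := by rw [hi, hμ]; ring
      rw [this]; exact hm0Z) hn0 hsZ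
  rcases hpar with ⟨hk2, hm2⟩ | ⟨hk2, hm4⟩
  · obtain ⟨r, hr⟩ : ∃ r : ℤ, (k : ℤ) = 2 * r := ⟨(k : ℤ) / 2, by omega⟩
    refine ⟨k + 1, k - 1, -r, 1 - r, by rw [hr]; ring, ?_⟩
    intro X Y
    obtain ⟨α, β, hab⟩ := cov X Y
    refine ⟨_, _, ?_, hab⟩
    refine ⟨α, ?_⟩
    rw [hi, hμ]
    ring
  · obtain ⟨r, hr⟩ : ∃ r : ℤ, (k : ℤ) + μ = 2 * r := ⟨((k : ℤ) + μ) / 2, by omega⟩
    refine ⟨k + 1 + μ, k - 1 + μ, -r, 1 - r, ?_, ?_⟩
    · have : (k : ℤ) = 2 * r - μ := by linarith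
      rw [this]; ring
    intro X Y
    obtain ⟨α, β, hab⟩ := cov X Y
    refine ⟨_, _, ?_, hab⟩
    refine ⟨α * (1 + k) - β, ?_⟩
    rw [hi, hμ]
    ring

theorem good_perfect {s n m : ℕ} (k : ℕ) (hn2 : n % 2 = 1)
    (hm : m = 2 * k ^ 2 + 2 * k + 1) (hs : s + 1 = n * (k + 1)) : Good s n m := by
  refine ⟨k + 1, k, 1, 1, by ring, ?_⟩
  intro X Y
  have hn0 : (0 : ℤ) < n := by exact_mod_cast (by omega : 0 < n)
  obtain ⟨α, β, hab⟩ := cover_perfect k n s (by positivity) hn0 (by omega)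
    (by exact_mod_cast hs) X Y
  refine ⟨_, _, ?_, hab⟩
  refine ⟨α, ?_⟩
  rw [hm]
  push_cast
  ring

end Pool.Agent.Helper15.RankTwo
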